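import Mathlib
import Pool.Agent.H302R2.Deg2C

/-!
# Class functions with nonnegative multiplicities on solvable subgroups
-/

set_option autoImplicit false

namespace Pool.Agent.H302R3

open Pool.Agent.H302R2

universe u

/-- A class function `θ` on a (finite) group such that for every SOLVABLE subgroup `H` and every
linear character `χ` of `H`, the multiplicity of `χ` in the restriction of `θ` to `H` is a
nonnegative integer. -/
structure IsSolHeilbronn {G : Type*} [Group G] (θ : G → ℂ) : Prop where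
  conj : ∀ g h : G, θ (h * g * h⁻¹) = θ g
  mult : ∀ (H : Subgroup G), Group.IsSolvable H → ∀ (χ : H →* ℂˣ), ∃ n : ℕ,
    ∑ᶠ h : H, θ h * (((χ h)⁻¹ : ℂˣ) : ℂ) = (n : ℂ) * (Nat.card H : ℂ)

lemma _root_.Pool.Agent.H302R2.IsHeilbronn.toSol {G : Type*} [Group G] {θ : G → ℂ}
    (hθ : IsHeilbronn θ) : IsSolHeilbronn θ :=
  ⟨hθ.conj, fun H _ χ => hθ.mult H χ⟩

section basics

variable {G : Type*} [Group G] [Finite G] {θ : G → ℂ}

/-- the multiplicity property along homomorphisms from solvable groups -/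
lemma IsSolHeilbronn.mult_hom (hθ : IsSolHeilbronn θ) {E : Type*} [Group E] [Fintype E]
    (hE : Group.IsSolvable E) (φ : E →* G) (χ : E →* ℂˣ) :
    ∃ n : ℕ, ∑ e : E, θ (φ e) * (((χ e)⁻¹ : ℂˣ) : ℂ) = (n : ℂ) * (Nat.card E : ℂ) := by
  classical
  by_cases hker : ∀ k ∈ φ.ker, χ k = 1
  · -- descend
    have : Fintype φ.range := Fintype.ofFinite _
    let χ' : φ.range →* ℂˣ :=
      (QuotientGroup.lift φ.ker χ hker).comp
        (QuotientGroup.quotientKerEquivRange φ).symm.toMonoidHom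
    have hχ' : ∀ e : E, χ' (φ.rangeRestrict e) = χ e := by
      intro e
      have : (QuotientGroup.quotientKerEquivRange φ).symm (φ.rangeRestrict e)
          = (QuotientGroup.mk e : E ⧸ φ.ker) := by
        rw [MulEquiv.symm_apply_eq]; rfl
      simp only [χ', MonoidHom.coe_comp, MulEquiv.coe_toMonoidHom, Function.comp_apply, this]
      rfl
    obtain ⟨n, hn⟩ := hθ.mult φ.range
      (Group.isSolvable_of_surjective φ.rangeRestrict_surjective) χ'
    refine ⟨n, ?_⟩
    rw [finsum_eq_sum_of_fintype] at hn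
    have h1 := sum_comp_surj φ.rangeRestrict φ.rangeRestrict_surjective
      (fun h : φ.range => θ h * (((χ' h)⁻¹ : ℂˣ) : ℂ))
    simp only [hχ', MonoidHom.coe_rangeRestrict] at h1
    rw [h1, hn, MonoidHom.ker_rangeRestrict]
    have h2 : Nat.card E = Nat.card φ.ker * Nat.card φ.range := by
      rw [← Nat.card_congr (QuotientGroup.quotientKerEquivRange φ).toEquiv, mul_comm]
      exact Subgroup.card_eq_card_quotient_mul_card_subgroup _
    rw [h2]; push_cast; ring
  · push Not at hker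
    obtain ⟨k, hk, hχk⟩ := hker
    refine ⟨0, ?_⟩
    have h1 : ∑ e : E, θ (φ e) * (((χ e)⁻¹ : ℂˣ) : ℂ)
        = ∑ e : E, θ (φ (e * k)) * (((χ (e * k))⁻¹ : ℂˣ) : ℂ) :=
      (Equiv.sum_comp (Equiv.mulRight k)
        (fun e => θ (φ e) * (((χ e)⁻¹ : ℂˣ) : ℂ))).symm
    have h2 : ∑ e : E, θ (φ (e * k)) * (((χ (e * k))⁻¹ : ℂˣ) : ℂ)
        = (((χ k)⁻¹ : ℂˣ) : ℂ) * ∑ e : E, θ (φ e) * (((χ e)⁻¹ : ℂˣ) : ℂ) := by
      rw [Finset.mul_sum]
      refine Finset.sum_congr rfl fun e _ => ?_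
      rw [map_mul, map_mul, MonoidHom.mem_ker.mp hk, mul_one, mul_inv_rev]
      push_cast; ring
    have h3 : (((χ k)⁻¹ : ℂˣ) : ℂ) ≠ 1 := by
      intro h
      apply hχk
      rw [← inv_eq_one, ← Units.val_eq_one]; exact h
    have h4 : (1 - (((χ k)⁻¹ : ℂˣ) : ℂ)) * ∑ e : E, θ (φ e) * (((χ e)⁻¹ : ℂˣ) : ℂ) = 0 := by
      rw [sub_mul, one_mul, ← h2, ← h1, sub_self]
    rcases mul_eq_zero.mp h4 with h5 | h5
    · exact absurd (sub_eq_zero.mp h5).symm h3
    · rw [h5]; simp

/-- Pulling back to a solvable group gives a Heilbronn function. -/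
lemma IsSolHeilbronn.comp_sol (hθ : IsSolHeilbronn θ) {E : Type*} [Group E] [Finite E]
    (hE : Group.IsSolvable E) (φ : E →* G) : IsHeilbronn (fun e => θ (φ e)) where
  conj g h := by simp only [map_mul, map_inv]; exact hθ.conj _ _
  mult H χ := by
    have : Fintype H := Fintype.ofFinite _
    have hH : Group.IsSolvable H := inferInstance
    obtain ⟨n, hn⟩ := hθ.mult_hom hH (φ.comp H.subtype) χ
    exact ⟨n, by rw [finsum_eq_sum_of_fintype]; exact hn⟩

/-- Pulling back along any homomorphism. -/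
lemma IsSolHeilbronn.comp (hθ : IsSolHeilbronn θ) {E : Type*} [Group E] [Finite E]
    (φ : E →* G) : IsSolHeilbronn (fun e => θ (φ e)) where
  conj g h := by simp only [map_mul, map_inv]; exact hθ.conj _ _
  mult H hH χ := by
    have : Fintype H := Fintype.ofFinite _
    obtain ⟨n, hn⟩ := hθ.mult_hom hH (φ.comp H.subtype) χ
    exact ⟨n, by rw [finsum_eq_sum_of_fintype]; exact hn⟩

/-- `θ 1` is a natural number. -/
lemma IsSolHeilbronn.exists_deg (hθ : IsSolHeilbronn θ) : ∃ r : ℕ, θ 1 = r := by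
  obtain ⟨n, hn⟩ := hθ.mult_hom (E := Unit) inferInstance 1 1
  exact ⟨n, by simpa using hn⟩

lemma sol_of_comm {E : Type*} [Group E] (hc : ∀ a b : E, a * b = b * a) : Group.IsSolvable E := by
  let _ : CommGroup E := { (inferInstance : Group E) with mul_comm := hc }
  exact Group.isSolvable_of_comm hc

lemma IsSolHeilbronn.zp (hθ : IsSolHeilbronn θ) (g : G) :
    IsHeilbronn (fun e : Subgroup.zpowers g => θ e) :=
  hθ.comp_sol (sol_of_comm (zpowers_comm g)) (Subgroup.zpowers g).subtype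

lemma IsSolHeilbronn.pair (hθ : IsSolHeilbronn θ) {x y : G} (hxy : x * y = y * x) :
    IsHeilbronn (fun e : Subgroup.closure ({x, y} : Set G) => θ e) :=
  hθ.comp_sol (sol_of_comm (closure_pair_comm hxy)) (Subgroup.closure ({x, y} : Set G)).subtype

lemma IsSolHeilbronn.norm_le (hθ : IsSolHeilbronn θ) (g : G) : ‖θ g‖ ≤ (θ 1).re := by
  have h := ((hθ.zp g).comm_facts (zpowers_comm g)).1 ⟨g, Subgroup.mem_zpowers g⟩
  simpa using h

/-- If `x, y` commute and `θ y = θ 1` then `θ (x * y) = θ x`. -/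
lemma IsSolHeilbronn.mul_of_comm (hθ : IsSolHeilbronn θ) {x y : G} (hxy : x * y = y * x)
    (hy : θ y = θ 1) : θ (x * y) = θ x := by
  have h := ((hθ.pair hxy).comm_facts (closure_pair_comm hxy)).2
    ⟨x, Subgroup.subset_closure (by simp)⟩ ⟨y, Subgroup.subset_closure (by simp)⟩
  exact h (by simpa using hy)

lemma IsSolHeilbronn.pow_of_eq (hθ : IsSolHeilbronn θ) {x : G} (hx : θ x = θ 1) (k : ℕ) :
    θ (x ^ k) = θ 1 := by
  induction k with
  | zero => simp
  | succ k ih => rw [pow_succ, hθ.mul_of_comm ((Commute.refl x).pow_left k) hx, ih]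

lemma IsSolHeilbronn.eq_deg_of_re (hθ : IsSolHeilbronn θ) {g : G} (hg : (θ 1).re ≤ (θ g).re) :
    θ g = θ 1 := by
  obtain ⟨r, hr⟩ := hθ.exists_deg
  have h1 := hθ.norm_le g
  rw [hr, Complex.natCast_re] at h1 hg
  rw [hr]
  have h2 := (Complex.re_le_norm (θ g))
  have h3 : (θ g).re = r := le_antisymm (h2.trans h1) hg
  have h4 : ‖θ g‖ = r := le_antisymm h1 (h3 ▸ h2)
  have h8 := Complex.sq_norm_sub_sq_re (θ g)
  rw [h3, h4] at h8
  apply Complex.ext
  · simpa using h3
  · have : (θ g).im ^ 2 = 0 := by linarith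
    simpa using this

/-- The kernel lemma for maps from solvable groups. -/
lemma IsSolHeilbronn.kernel_lemma (hθ : IsSolHeilbronn θ) {E : Type*} [Group E] [Finite E]
    (hE : Group.IsSolvable E)
    (φ : E →* G) (χ : E →* ℂˣ) {e₀ : E} (he₀ : χ e₀ ≠ 1)
    (h : ∀ e, χ e ≠ 1 → θ (φ e) = θ 1) (e : E) : θ (φ e) = θ 1 := by
  have h1 := (hθ.comp_sol hE φ).kernel_lemma (MonoidHom.id E) χ he₀
    (fun e he => by simpa using h e he) e
  simpa using h1

/-- `θ g` is an algebraic integer. -/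
lemma IsSolHeilbronn.isIntegral (hθ : IsSolHeilbronn θ) (g : G) : IsIntegral ℤ (θ g) := by
  obtain ⟨ι, _, ψ, n, h⟩ := (hθ.zp g).comm_decomp (zpowers_comm g)
  have h1 := h ⟨g, Subgroup.mem_zpowers g⟩
  simp only at h1
  rw [h1]
  apply IsIntegral.sum
  intro i _
  apply IsIntegral.mul
  · have : ((n i : ℕ) : ℂ) = algebraMap ℤ ℂ (n i : ℤ) := by simp
    rw [this]
    exact isIntegral_algebraMap
  · have h2 : ((ψ i ⟨g, Subgroup.mem_zpowers g⟩ : ℂˣ) : ℂ) ^ (Nat.card (Subgroup.zpowers g))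
        = 1 := by
      rw [← Units.val_pow_eq_pow_val, ← map_pow, pow_card_eq_one', map_one, Units.val_one]
    apply IsIntegral.of_pow (Nat.card_pos (α := Subgroup.zpowers g))
    rw [h2]
    exact isIntegral_one

/-- twisting by a linear character -/
lemma IsSolHeilbronn.twist (hθ : IsSolHeilbronn θ) (χ : G →* ℂˣ) :
    IsSolHeilbronn (fun g => θ g * (((χ g)⁻¹ : ℂˣ) : ℂ)) where
  conj g h := by
    have : χ (h * g * h⁻¹) = χ g := by
      rw [map_mul, map_mul, map_inv, mul_comm (χ h), mul_inv_cancel_right]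
    rw [hθ.conj, this]
  mult H hH ψ := by
    obtain ⟨n, hn⟩ := hθ.mult H hH (ψ * χ.comp H.subtype)
    refine ⟨n, ?_⟩
    rw [← hn]
    refine finsum_congr fun h => ?_
    rw [MonoidHom.mul_apply, mul_inv, Units.val_mul, MonoidHom.comp_apply]
    simp only [Subgroup.coe_subtype]
    ring

end basics

end Pool.Agent.H302R3
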