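import Mathlib
import Pool.Agent.H302R2.Parity
import Pool.Agent.H302R3.Weak

/-!
# Hyperelementary subgroups at a prime and permutation characters prime to `p` everywhere
-/

set_option autoImplicit false

namespace Pool.Agent.H302R3

open Pool.Agent.H302R2 MulAction

universe u

/-- `p`-hyperelementary groups: a normal cyclic `p'`-subgroup with quotient a `p`-group -/
def HypP (p : ℕ) (U : Type*) [Group U] : Prop :=
  ∃ c : U, (orderOf c).Coprime p ∧ (∀ u : U, u * c * u⁻¹ ∈ Subgroup.zpowers c) ∧
    ∀ u : U, ∃ k : ℕ, u ^ (p ^ k) ∈ Subgroup.zpowers c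

lemma HypP.of_injective {p : ℕ} {W V : Type*} [Group W] [Group V] (f : W →* V)
    (hf : Function.Injective f) (hV : HypP p V) : HypP p W := by
  obtain ⟨c, hcop, hn, hp⟩ := hV
  have hcyc : IsCyclic ((Subgroup.zpowers c).comap f) := by
    apply isCyclic_of_injective (f.subgroupComap (Subgroup.zpowers c))
    rintro ⟨x, hx⟩ ⟨y, hy⟩ hxy
    apply Subtype.ext
    apply hf
    exact congrArg Subtype.val hxy
  obtain ⟨⟨c', hc'⟩, hgen⟩ := hcyc.exists_generator
  have hz : ∀ x : W, f x ∈ Subgroup.zpowers c → x ∈ Subgroup.zpowers c' := by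
    intro x hx
    obtain ⟨k, hk⟩ := hgen ⟨x, hx⟩
    exact ⟨k, congrArg Subtype.val hk⟩
  refine ⟨c', ?_, fun u => ?_, fun u => ?_⟩
  · have h1 : orderOf c' = orderOf (f c') := (orderOf_injective f hf c').symm
    have h2 : orderOf (f c') ∣ orderOf c := orderOf_dvd_of_mem_zpowers hc'
    rw [h1]
    exact Nat.Coprime.coprime_dvd_left h2 hcop
  · apply hz
    rw [map_mul, map_mul, map_inv]
    exact conj_zpowers hn (f u) hc'
  · obtain ⟨k, hk⟩ := hp (f u)
    refine ⟨k, hz _ ?_⟩
    rw [map_pow]; exact hk

lemma HypP.solvable {p : ℕ} (hp : p.Prime) {U : Type*} [Group U] [Finite U] (h : HypP p U) :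
    Group.IsSolvable U := by
  obtain ⟨c, -, hn, hpw⟩ := h
  have hN : (Subgroup.zpowers c).Normal := ⟨fun x hx u => conj_zpowers hn u hx⟩
  have : Fact p.Prime := ⟨hp⟩
  have hQ : IsPGroup p (U ⧸ Subgroup.zpowers c) := by
    intro q
    induction q using QuotientGroup.induction_on with | _ u => ?_
    obtain ⟨k, hk⟩ := hpw u
    refine ⟨k, ?_⟩
    rw [← QuotientGroup.mk_pow]
    exact (QuotientGroup.eq_one_iff _).mpr hk
  have h1 : Group.IsNilpotent (U ⧸ Subgroup.zpowers c) := hQ.isNilpotent
  have h2 : Group.IsSolvable (U ⧸ Subgroup.zpowers c) := inferInstance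
  have h3 : Group.IsSolvable (Subgroup.zpowers c) := sol_of_comm (zpowers_comm c)
  exact Group.isSolvable_of_ker_le_range (Subgroup.zpowers c).subtype
    (QuotientGroup.mk' (Subgroup.zpowers c)) (by simp)

lemma Hyp.solvable {U : Type*} [Group U] [Finite U] (h : Hyp U) : Group.IsSolvable U := by
  obtain ⟨c, hc, hn, hpw⟩ := h
  exact HypP.solvable Nat.prime_two ⟨c, (Nat.coprime_two_right).mpr hc, hn, hpw⟩

/-- fixed-point counts of finite `G`-sets with `p`-hyperelementary stabilizers -/
def HypPCount (p : ℕ) {G : Type u} [Group G] (f : G → ℕ) : Prop :=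
  ∃ (X : Type u) (_ : MulAction G X) (_ : Finite X),
    (∀ x : X, HypP p (stabilizer G x)) ∧ ∀ g : G, f g = Nat.card {x : X // g • x = x}

section

variable {G : Type u} [Group G] {p : ℕ}

lemma HypPCount.add {f f' : G → ℕ} (hf : HypPCount p f) (hf' : HypPCount p f') :
    HypPCount p (fun g => f g + f' g) := by
  obtain ⟨X, _, _, h1, h2⟩ := hf
  obtain ⟨X', _, _, h1', h2'⟩ := hf'
  refine ⟨X ⊕ X', inferInstance, inferInstance, ?_, fun g => ?_⟩
  · rintro (x | x)
    · have hle : stabilizer G (Sum.inl x : X ⊕ X') ≤ stabilizer G x := by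
        intro g hg
        rw [mem_stabilizer_iff] at hg ⊢
        exact Sum.inl_injective hg
      exact HypP.of_injective (Subgroup.inclusion hle) (Subgroup.inclusion_injective hle) (h1 x)
    · have hle : stabilizer G (Sum.inr x : X ⊕ X') ≤ stabilizer G x := by
        intro g hg
        rw [mem_stabilizer_iff] at hg ⊢
        exact Sum.inr_injective hg
      exact HypP.of_injective (Subgroup.inclusion hle) (Subgroup.inclusion_injective hle) (h1' x)
  · rw [Nat.card_congr (Equiv.subtypeSum (α := X) (β := X') (p := fun c => g • c = c)),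
      Nat.card_sum]
    simp only
    rw [h2, h2']
    congr 1
    · refine Nat.card_congr (Equiv.subtypeEquivRight fun x => ?_)
      exact ⟨fun h => by rw [Sum.smul_inl, h], fun h => Sum.inl_injective h⟩
    · refine Nat.card_congr (Equiv.subtypeEquivRight fun x => ?_)
      exact ⟨fun h => by rw [Sum.smul_inr, h], fun h => Sum.inr_injective h⟩

lemma HypPCount.mul {f f' : G → ℕ} (hf : HypPCount p f) (hf' : HypPCount p f') :
    HypPCount p (fun g => f g * f' g) := by
  obtain ⟨X, _, _, h1, h2⟩ := hf
  obtain ⟨X', _, _, h1', h2'⟩ := hf'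
  refine ⟨X × X', inferInstance, inferInstance, ?_, fun g => ?_⟩
  · rintro ⟨x, y⟩
    have hle : stabilizer G ((x, y) : X × X') ≤ stabilizer G x := by
      intro g hg
      rw [mem_stabilizer_iff] at hg ⊢
      exact congrArg Prod.fst hg
    exact HypP.of_injective (Subgroup.inclusion hle) (Subgroup.inclusion_injective hle) (h1 x)
  · simp only
    rw [h2, h2', ← Nat.card_prod]
    refine Nat.card_congr (Equiv.trans (Equiv.subtypeProdEquivProd).symm
      (Equiv.subtypeEquivRight fun x => ?_))
    rw [Prod.ext_iff]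
    rfl

lemma HypPCount.pow {f : G → ℕ} (hf : HypPCount p f) (n : ℕ) :
    HypPCount p (fun g => f g ^ (n + 1)) := by
  induction n with
  | zero => simpa using hf
  | succ n ih =>
    have := ih.mul hf
    simpa [pow_succ] using this

lemma HypPCount.nsmul {f : G → ℕ} (hf : HypPCount p f) (n : ℕ) :
    HypPCount p (fun g => (n + 1) * f g) := by
  induction n with
  | zero => simpa using hf
  | succ n ih =>
    have := ih.add hf
    refine cast (congrArg (HypPCount p) ?_) this
    funext g
    ring

end

section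

variable {G : Type u} [Group G] [Finite G] {θ : G → ℂ} {p : ℕ}

/-- multiplicities against permutation characters with hyperelementary stabilizers -/
lemma IsSolHeilbronn.sum_count (hθ : IsSolHeilbronn θ) (hp : p.Prime)
    {f : G → ℕ} (hf : HypPCount p f) : ∃ k : ℕ, ∑ᶠ g : G, θ g * (f g : ℂ) = k * Nat.card G := by
  classical
  obtain ⟨X, _, _, hX, hfX⟩ := hf
  have : Fintype G := Fintype.ofFinite _
  have : Fintype X := Fintype.ofFinite _
  let F : X → ℂ := fun x => ∑ g : G, if g • x = x then θ g else 0
  have hstab : ∀ x : X, ∃ k : ℕ, F x = k * Nat.card (stabilizer G x) := by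
    intro x
    obtain ⟨k, hk⟩ := hθ.mult (stabilizer G x) ((hX x).solvable hp) 1
    refine ⟨k, ?_⟩
    rw [← hk, finsum_eq_sum_of_fintype]
    simp only [MonoidHom.one_apply, inv_one, Units.val_one, mul_one]
    change (∑ g : G, if g • x = x then θ g else 0) = _
    rw [← Finset.sum_filter]
    exact Finset.sum_subtype _ (by simp) θ
  choose k hk using hstab
  have hinv : ∀ (h : G) (x : X), F (h • x) = F x := by
    intro h x
    change ∑ g : G, (if g • h • x = h • x then θ g else 0) = ∑ g : G, if g • x = x then θ g else 0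
    rw [← Equiv.sum_comp (MulAut.conj h).toEquiv
      (fun g => if g • h • x = h • x then θ g else 0)]
    refine Finset.sum_congr rfl fun g _ => ?_
    have e1 : (MulAut.conj h).toEquiv g = h * g * h⁻¹ := rfl
    rw [e1, hθ.conj]
    have e2 : ((h * g * h⁻¹) • h • x = h • x) ↔ (g • x = x) := by
      rw [smul_smul, inv_mul_cancel_right, mul_smul]
      exact smul_left_cancel_iff h
    by_cases hgx : g • x = x
    · rw [if_pos hgx, if_pos (e2.mpr hgx)]
    · rw [if_neg hgx, if_neg (fun h => hgx (e2.mp h))]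
  have hsum : ∑ᶠ g : G, θ g * (f g : ℂ) = ∑ x : X, F x := by
    rw [finsum_eq_sum_of_fintype, Finset.sum_comm]
    refine Finset.sum_congr rfl fun g _ => ?_
    rw [hfX, ← Finset.sum_filter, Finset.sum_const, nsmul_eq_mul, mul_comm,
      Nat.card_eq_fintype_card, Fintype.card_subtype]
  let mk : X → Quotient (orbitRel G X) := Quotient.mk _
  refine ⟨∑ ω : Quotient (orbitRel G X), k ω.out, ?_⟩
  rw [hsum, ← Finset.sum_fiberwise_of_maps_to (s := Finset.univ) (t := Finset.univ)
    (g := mk) (fun _ _ => Finset.mem_univ _)]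
  push_cast
  rw [Finset.sum_mul]
  refine Finset.sum_congr rfl fun ω _ => ?_
  have hconst : ∀ x ∈ Finset.univ.filter (fun x => mk x = ω), F x = F ω.out := by
    intro x hx
    have h2 := (Finset.mem_filter.mp hx).2
    have h3 : mk x = mk ω.out := by
      rw [h2]; exact (Quotient.out_eq ω).symm
    have h4 := Quotient.exact h3
    obtain ⟨h, hh⟩ := orbitRel_apply.mp h4
    rw [← hh, hinv]
  rw [Finset.sum_congr rfl hconst, Finset.sum_const, nsmul_eq_mul, hk]
  have hcard : (Finset.univ.filter (fun x => mk x = ω)).card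
      * Nat.card (stabilizer G ω.out) = Nat.card G := by
    have : Fintype (orbit G ω.out) := Fintype.ofFinite _
    have : Fintype (stabilizer G ω.out) := Fintype.ofFinite _
    have h5 := card_orbit_mul_card_stabilizer_eq_card_group G ω.out
    rw [Nat.card_eq_fintype_card, Nat.card_eq_fintype_card, ← h5]
    congr 1
    rw [← Fintype.card_subtype]
    refine Fintype.card_congr (Equiv.subtypeEquivRight fun x => ?_)
    constructor
    · intro h2
      have h3 : mk x = mk ω.out := by
        rw [h2]; exact (Quotient.out_eq ω).symm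
      exact orbitRel_apply.mp (Quotient.exact h3)
    · intro h2
      have h3 : mk x = mk ω.out := Quotient.sound (orbitRel_apply.mpr h2)
      rw [h3]; exact Quotient.out_eq ω
  rw [← hcard]
  push_cast
  ring

/-- In degree two with trivial determinant the multiplicities against permutation characters with
`2`-hyperelementary stabilizers are even -/
lemma IsSolHeilbronn.sum_count_even (hθ : IsSolHeilbronn θ) (h1 : θ 1 = 2)
    (hd : ∀ g, dd θ g = 1)
    {f : G → ℕ} (hf : HypCount f) : ∃ k : ℕ, ∑ᶠ g : G, θ g * (f g : ℂ) = 2 * k * Nat.card G := by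
  classical
  obtain ⟨X, _, _, hX, hfX⟩ := hf
  have : Fintype G := Fintype.ofFinite _
  have : Fintype X := Fintype.ofFinite _
  let F : X → ℂ := fun x => ∑ g : G, if g • x = x then θ g else 0
  have hstab : ∀ x : X, ∃ k : ℕ, F x = 2 * k * Nat.card (stabilizer G x) := by
    intro x
    obtain ⟨k, hk⟩ := even_of_hyp (Nat.card (stabilizer G x)) (stabilizer G x) rfl (hX x)
      (fun g => θ g) (hθ.comp_sol (Hyp.solvable (hX x)) (stabilizer G x).subtype) h1
      (fun g => hd g)
    refine ⟨k, ?_⟩
    rw [← hk, finsum_eq_sum_of_fintype]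
    change (∑ g : G, if g • x = x then θ g else 0) = _
    rw [← Finset.sum_filter]
    exact Finset.sum_subtype _ (by simp) θ
  choose k hk using hstab
  have hinv : ∀ (h : G) (x : X), F (h • x) = F x := by
    intro h x
    change ∑ g : G, (if g • h • x = h • x then θ g else 0) = ∑ g : G, if g • x = x then θ g else 0
    rw [← Equiv.sum_comp (MulAut.conj h).toEquiv
      (fun g => if g • h • x = h • x then θ g else 0)]
    refine Finset.sum_congr rfl fun g _ => ?_
    have e1 : (MulAut.conj h).toEquiv g = h * g * h⁻¹ := rfl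
    rw [e1, hθ.conj]
    have e2 : ((h * g * h⁻¹) • h • x = h • x) ↔ (g • x = x) := by
      rw [smul_smul, inv_mul_cancel_right, mul_smul]
      exact smul_left_cancel_iff h
    by_cases hgx : g • x = x
    · rw [if_pos hgx, if_pos (e2.mpr hgx)]
    · rw [if_neg hgx, if_neg (fun h => hgx (e2.mp h))]
  have hsum : ∑ᶠ g : G, θ g * (f g : ℂ) = ∑ x : X, F x := by
    rw [finsum_eq_sum_of_fintype, Finset.sum_comm]
    refine Finset.sum_congr rfl fun g _ => ?_
    rw [hfX, ← Finset.sum_filter, Finset.sum_const, nsmul_eq_mul, mul_comm,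
      Nat.card_eq_fintype_card, Fintype.card_subtype]
  let mk : X → Quotient (orbitRel G X) := Quotient.mk _
  refine ⟨∑ ω : Quotient (orbitRel G X), k ω.out, ?_⟩
  rw [hsum, ← Finset.sum_fiberwise_of_maps_to (s := Finset.univ) (t := Finset.univ)
    (g := mk) (fun _ _ => Finset.mem_univ _)]
  push_cast
  rw [Finset.mul_sum, Finset.sum_mul]
  refine Finset.sum_congr rfl fun ω _ => ?_
  have hconst : ∀ x ∈ Finset.univ.filter (fun x => mk x = ω), F x = F ω.out := by
    intro x hx
    have h2 := (Finset.mem_filter.mp hx).2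
    have h3 : mk x = mk ω.out := by
      rw [h2]; exact (Quotient.out_eq ω).symm
    have h4 := Quotient.exact h3
    obtain ⟨h, hh⟩ := orbitRel_apply.mp h4
    rw [← hh, hinv]
  rw [Finset.sum_congr rfl hconst, Finset.sum_const, nsmul_eq_mul, hk]
  have hcard : (Finset.univ.filter (fun x => mk x = ω)).card
      * Nat.card (stabilizer G ω.out) = Nat.card G := by
    have : Fintype (orbit G ω.out) := Fintype.ofFinite _
    have : Fintype (stabilizer G ω.out) := Fintype.ofFinite _
    have h5 := card_orbit_mul_card_stabilizer_eq_card_group G ω.out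
    rw [Nat.card_eq_fintype_card, Nat.card_eq_fintype_card, ← h5]
    congr 1
    rw [← Fintype.card_subtype]
    refine Fintype.card_congr (Equiv.subtypeEquivRight fun x => ?_)
    constructor
    · intro h2
      have h3 : mk x = mk ω.out := by
        rw [h2]; exact (Quotient.out_eq ω).symm
      exact orbitRel_apply.mp (Quotient.exact h3)
    · intro h2
      have h3 : mk x = mk ω.out := Quotient.sound (orbitRel_apply.mpr h2)
      rw [h3]; exact Quotient.out_eq ω
  rw [← hcard]
  push_cast
  ring

end

/-- For every `g` there is a `p`-hyperelementary subgroup such that the number of fixed points of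
`g` on its cosets is prime to `p`. -/
lemma exists_prime_to {G : Type u} [Group G] [Finite G] {p : ℕ} (hp : p.Prime) (g : G) :
    ∃ f : G → ℕ, HypPCount p f ∧ ¬ p ∣ f g := by
  classical
  have hpf : Fact (Nat.Prime p) := ⟨hp⟩
  have hpos : 0 < orderOf g := orderOf_pos g
  obtain ⟨a, m, hm, ham⟩ := Nat.exists_eq_pow_mul_and_not_dvd hpos.ne' p hp.ne_one
  have hmc : m.Coprime p := ((Nat.Prime.coprime_iff_not_dvd hp).mpr hm).symm
  set c := g ^ (p ^ a) with hc
  have hco : orderOf c = m := by
    rw [hc, orderOf_pow_of_dvd (pow_pos hp.pos a).ne' ⟨m, ham⟩, ham,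
      Nat.mul_div_cancel_left _ (pow_pos hp.pos a)]
  set M := nrm c with hM
  have hcM : c ∈ M := by
    refine ⟨?_, ?_⟩
    · rw [mul_inv_cancel_right]; exact Subgroup.mem_zpowers c
    · rw [inv_mul_cancel, one_mul]; exact Subgroup.mem_zpowers c
  let C' : Subgroup M := Subgroup.zpowers ⟨c, hcM⟩
  have hC' : ∀ x : M, x ∈ C' ↔ (x : G) ∈ Subgroup.zpowers c := by
    intro x
    constructor
    · rintro ⟨k, rfl⟩
      exact ⟨k, by simp⟩
    · rintro ⟨k, hk⟩
      exact ⟨k, Subtype.ext (by simpa using hk)⟩
  have hC'n : C'.Normal := by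
    refine ⟨fun x hx u => ?_⟩
    obtain ⟨k, rfl⟩ := hx
    simp only
    rw [← conj_zpow]
    apply Subgroup.zpow_mem
    rw [hC']
    exact u.2.1
  obtain ⟨P⟩ : Nonempty (Sylow p (M ⧸ C')) := inferInstance
  let U' : Subgroup M := (P : Subgroup (M ⧸ C')).comap (QuotientGroup.mk' C')
  let U : Subgroup G := U'.map M.subtype
  have hUM : ∀ x : G, x ∈ U ↔ ∃ hx : x ∈ M, (⟨x, hx⟩ : M) ∈ U' := by
    intro x
    constructor
    · rintro ⟨y, hy, rfl⟩
      exact ⟨y.2, hy⟩
    · rintro ⟨hx, hy⟩
      exact ⟨⟨x, hx⟩, hy, rfl⟩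
  have hCU' : C' ≤ U' := by
    intro x hx
    rw [Subgroup.mem_comap]
    have : (QuotientGroup.mk' C') x = 1 := (QuotientGroup.eq_one_iff x).mpr hx
    rw [this]; exact one_mem _
  have hCU : ∀ x ∈ Subgroup.zpowers c, x ∈ U := by
    intro x hx
    have hxM : x ∈ M := by
      obtain ⟨k, rfl⟩ := hx
      exact Subgroup.zpow_mem _ hcM k
    exact (hUM x).mpr ⟨hxM, hCU' ((hC' _).mpr hx)⟩
  have hUpow : ∀ x ∈ U, ∃ k : ℕ, x ^ (p ^ k) ∈ Subgroup.zpowers c := by
    intro x hx
    obtain ⟨hxM, hxU⟩ := (hUM x).mp hx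
    obtain ⟨k, hk⟩ := P.isPGroup' ⟨_, hxU⟩
    refine ⟨k, ?_⟩
    have h2 : ((QuotientGroup.mk' C') ⟨x, hxM⟩) ^ (p ^ k) = 1 := congrArg Subtype.val hk
    rw [← map_pow] at h2
    have h3 : (⟨x, hxM⟩ : M) ^ (p ^ k) ∈ C' := (QuotientGroup.eq_one_iff _).mp h2
    rw [hC'] at h3
    simpa using h3
  have hcU : c ∈ U := hCU c (Subgroup.mem_zpowers c)
  have hHyp : HypP p U := by
    refine ⟨⟨c, hcU⟩, ?_, fun u => ?_, fun u => ?_⟩
    · rw [Subgroup.orderOf_mk, hco]; exact hmc
    · obtain ⟨hx, -⟩ := (hUM u).mp u.2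
      obtain ⟨k, hk⟩ := hx.1
      exact ⟨k, Subtype.ext (by simpa using hk)⟩
    · obtain ⟨k, j, hj⟩ := hUpow u u.2
      exact ⟨k, j, Subtype.ext (by simpa using hj)⟩
  -- the G-set
  refine ⟨fun h => Nat.card {x : G ⧸ U // h • x = x}, ⟨G ⧸ U, inferInstance, inferInstance, ?_,
    fun h => rfl⟩, ?_⟩
  · intro q
    induction q using QuotientGroup.induction_on with | _ x => ?_
    let f : stabilizer G ((x : G) : G ⧸ U) →* U :=
      { toFun := fun y => ⟨x⁻¹ * y * x, by
          have h2 := y.2
          rw [mem_stabilizer_iff] at h2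
          have h3 : ((↑((y : G) * x) : G ⧸ U)) = x := h2
          rw [QuotientGroup.eq] at h3
          have h4 := U.inv_mem h3
          have : (((y : G) * x)⁻¹ * x)⁻¹ = x⁻¹ * y * x := by group
          rwa [this] at h4⟩
        map_one' := by apply Subtype.ext; simp
        map_mul' := by
          intro y z
          apply Subtype.ext
          simp only [Subgroup.coe_mul]
          group }
    refine hHyp.of_injective f ?_
    intro y z hyz
    apply Subtype.ext
    have h2 := congrArg Subtype.val hyz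
    change x⁻¹ * (y : G) * x = x⁻¹ * (z : G) * x at h2
    exact mul_left_cancel (mul_right_cancel h2)
  · -- count
    simp only
    let Y : Set (G ⧸ U) := {x | c • x = x}
    have hY : ∀ x : G, (x : G ⧸ U) ∈ Y ↔ x ∈ M := by
      intro x
      have h1 : (x : G ⧸ U) ∈ Y ↔ x⁻¹ * c * x ∈ U := by
        change ((↑(c * x) : G ⧸ U) = x) ↔ _
        rw [QuotientGroup.eq, ← U.inv_mem_iff]
        have : ((c * x)⁻¹ * x)⁻¹ = x⁻¹ * c * x := by group
        rw [this]
      rw [h1]
      constructor
      · intro h2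
        have hord : orderOf (x⁻¹ * c * x) = m := by
          have : x⁻¹ * c * x = MulAut.conj x⁻¹ c := by simp
          rw [this, MulEquiv.orderOf_eq, hco]
        obtain ⟨k, hk⟩ := hUpow _ h2
        have h3 : x⁻¹ * c * x ∈ Subgroup.zpowers c := by
          have hcop : Nat.Coprime (p ^ k) m := Nat.Coprime.pow_left k hmc.symm
          obtain ⟨j, hj⟩ := exists_pow_eq_self_of_coprime
            (n := p ^ k) (x := x⁻¹ * c * x) (by rw [hord]; exact hcop)
          rw [← hj]
          exact Subgroup.pow_mem _ hk j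
        refine ⟨?_, h3⟩
        -- c ∈ zpowers (x⁻¹ c x)
        have h4 : Subgroup.zpowers (x⁻¹ * c * x) = Subgroup.zpowers c := by
          apply Subgroup.eq_of_le_of_card_ge (Subgroup.zpowers_le.mpr h3)
          rw [Nat.card_zpowers, Nat.card_zpowers, hord, hco]
        have h5 : c ∈ Subgroup.zpowers (x⁻¹ * c * x) := by
          rw [h4]; exact Subgroup.mem_zpowers c
        obtain ⟨j, hj⟩ := h5
        refine ⟨j, ?_⟩
        simp only at hj ⊢
        have h6 : (x⁻¹ * c * x) ^ j = x⁻¹ * c ^ j * x := by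
          have := conj_zpow (i := j) (a := x⁻¹) (b := c)
          rw [inv_inv] at this
          exact this
        rw [h6] at hj
        have h7 : c ^ j = x * (x⁻¹ * c ^ j * x) * x⁻¹ := by group
        rw [h7, hj]
      · intro h2
        exact hCU _ h2.2
    have hYset : (QuotientGroup.mk ⁻¹' Y : Set G) = (M : Set G) := by
      ext x
      exact hY x
    have hcardY : Nat.card M = Nat.card U * Nat.card Y := by
      rw [← Nat.card_prod, ← Nat.card_congr (QuotientGroup.preimageMkEquivSubgroupProdSet U Y)]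
      rw [hYset]
      rfl
    have hYp : ¬ p ∣ Nat.card Y := by
      have h2 : Nat.card M = Nat.card U' * U'.index := (Subgroup.card_mul_index U').symm
      have h3 : Nat.card U = Nat.card U' :=
        (Nat.card_congr (U'.equivMapOfInjective M.subtype M.subtype_injective).toEquiv).symm
      have h4 : U'.index = (P : Subgroup (M ⧸ C')).index :=
        Subgroup.index_comap_of_surjective _ (QuotientGroup.mk'_surjective C')
      have h5 : ¬ p ∣ (P : Subgroup (M ⧸ C')).index := P.not_dvd_index
      rw [h2, h3] at hcardY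
      have h6 := Nat.eq_of_mul_eq_mul_left Nat.card_pos hcardY
      rw [← h6, h4]
      exact h5
    -- action of g on Y
    have hgY : ∀ y : Y, g • (y : G ⧸ U) ∈ Y := by
      intro y
      change c • g • (y : G ⧸ U) = g • (y : G ⧸ U)
      rw [smul_smul, show c * g = g * c by rw [hc]; exact (Commute.self_pow g _).symm.eq,
        mul_smul, y.2]
    let π : Function.End Y := fun y => ⟨g • (y : G ⧸ U), hgY y⟩
    have hπ : ∀ (n : ℕ) (y : Y), (((π ^ n) y : Y) : G ⧸ U) = g ^ n • (y : G ⧸ U) := by
      intro n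
      induction n with
      | zero => intro y; rw [pow_zero, pow_zero, one_smul]; rfl
      | succ n ih =>
        intro y
        rw [pow_succ', pow_succ', mul_smul, ← ih]
        rfl
    have hπ2 : π ^ p ^ a = 1 := by
      funext y
      apply Subtype.ext
      rw [hπ]
      exact y.2
    have : Fintype Y := Fintype.ofFinite _
    have hmod := Equiv.Perm.card_fixedPoints_modEq hπ2
    have hodd2 : ¬ p ∣ (Fintype.card (Function.fixedPoints π)) := by
      rw [Nat.card_eq_fintype_card] at hYp
      intro h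
      exact hYp ((Nat.ModEq.dvd_iff hmod (dvd_refl p)).mpr h)
    have heq : Nat.card {x : G ⧸ U // g • x = x} = Fintype.card (Function.fixedPoints π) := by
      rw [← Nat.card_eq_fintype_card]
      refine Nat.card_congr ⟨fun x => ⟨⟨x.1, ?_⟩, ?_⟩, fun y => ⟨y.1.1, ?_⟩, ?_, ?_⟩
      · change c • x.1 = x.1
        have h2 : ∀ n : ℕ, g ^ n • x.1 = x.1 := by
          intro n
          induction n with
          | zero => simp
          | succ n ih => rw [pow_succ, mul_smul, x.2, ih]
        rw [hc]; exact h2 _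
      · apply Subtype.ext
        exact x.2
      · exact congrArg Subtype.val y.2
      · intro x; rfl
      · intro y; rfl
    rw [heq]; exact hodd2

lemma exists_all_prime_to {G : Type u} [Group G] [Finite G] {p : ℕ} (hp : p.Prime) :
    ∃ F : G → ℕ, HypPCount p F ∧ ∀ g, ¬ p ∣ F g := by
  classical
  have : Fintype G := Fintype.ofFinite _
  have : Fact p.Prime := ⟨hp⟩
  have hfer : ∀ x : ℕ, ¬ p ∣ x → x ^ (p - 1) ≡ 1 [MOD p] := by
    intro x hx
    have h1 := Nat.ModEq.pow_totient (((Nat.Prime.coprime_iff_not_dvd hp).mpr hx).symm)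
    rwa [Nat.totient_prime hp] at h1
  have hp1 : p - 1 - 1 + 1 = p - 1 := by have := hp.two_le; omega
  have hp2 : p - 1 + 1 = p := by have := hp.two_le; omega
  have key : ∀ T : Finset G, ∃ F : G → ℕ, HypPCount p F ∧ ∀ g ∈ T, ¬ p ∣ (F g) := by
    intro T
    induction T using Finset.induction_on with
    | empty =>
      obtain ⟨f, hf, -⟩ := exists_prime_to hp (1 : G)
      exact ⟨f, hf, by simp⟩
    | insert g T _ ih =>
      obtain ⟨F, hF, hF'⟩ := ih
      obtain ⟨f, hf, hf'⟩ := exists_prime_to hp g
      have hA := hF.pow (p - 1 - 1)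
      have hB := hf.pow (p - 1 - 1)
      rw [hp1] at hA hB
      have hAB := (hA.mul hB).nsmul (p - 1 - 1)
      rw [hp1] at hAB
      refine ⟨_, (hA.add hB).add hAB, ?_⟩
      intro x hx
      have hone : F x ^ (p - 1) + f x ^ (p - 1) + (p - 1) * (F x ^ (p - 1) * f x ^ (p - 1))
          ≡ 1 [MOD p] := by
        rcases Finset.mem_insert.mp hx with rfl | hx
        · have h1 := hfer _ hf'
          have h2 : F x ^ (p - 1) + f x ^ (p - 1) + (p - 1) * (F x ^ (p - 1) * f x ^ (p - 1))
              ≡ F x ^ (p - 1) + 1 + (p - 1) * (F x ^ (p - 1) * 1) [MOD p] :=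
            (h1.add_left _).add ((h1.mul_left _).mul_left _)
          refine h2.trans ?_
          have h3 : F x ^ (p - 1) + 1 + (p - 1) * (F x ^ (p - 1) * 1)
              = 1 + p * F x ^ (p - 1) := by
            conv_rhs => rw [← hp2]
            ring_nf
            simp [hp2]
          rw [h3]
          exact (Nat.modEq_zero_iff_dvd.mpr (dvd_mul_right p _)).add_left 1
        · have h1 := hfer _ (hF' x hx)
          have h2 : F x ^ (p - 1) + f x ^ (p - 1) + (p - 1) * (F x ^ (p - 1) * f x ^ (p - 1))
              ≡ 1 + f x ^ (p - 1) + (p - 1) * (1 * f x ^ (p - 1)) [MOD p] :=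
            (h1.add_right _).add ((h1.mul_right _).mul_left _)
          refine h2.trans ?_
          have h3 : 1 + f x ^ (p - 1) + (p - 1) * (1 * f x ^ (p - 1))
              = 1 + p * f x ^ (p - 1) := by
            conv_rhs => rw [← hp2]
            ring_nf
            simp [hp2]
          rw [h3]
          exact (Nat.modEq_zero_iff_dvd.mpr (dvd_mul_right p _)).add_left 1
      intro hdvd
      have h4 := (Nat.ModEq.dvd_iff hone (dvd_refl p)).mp hdvd
      exact hp.one_lt.not_ge (Nat.le_of_dvd one_pos h4)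
  obtain ⟨F, hF, hF'⟩ := key Finset.univ
  exact ⟨F, hF, fun g => hF' g (Finset.mem_univ g)⟩

end Pool.Agent.H302R3
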