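import Mathlib
import Pool.Agent.H302R3.HypP
import Pool.Agent.H302R2.Deg2Final

/-!
# Integrality of multiplicities of functions that are Heilbronn on solvable subgroups
-/

set_option autoImplicit false

namespace Pool.Agent.H302R3

open Pool.Agent.H302R2 MulAction

universe u

section

variable {G : Type u} [Group G] [Finite G] {θ : G → ℂ}

/-- the sum of the values is a rational integer -/
lemma IsSolHeilbronn.exists_int_sum (hθ : IsSolHeilbronn θ) :
    ∃ s : ℤ, ∑ᶠ g : G, θ g = s := by
  classical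
  have : Fintype G := Fintype.ofFinite _
  have : Fintype (Subgroup G) := Fintype.ofFinite _
  let T : Subgroup G → ℂ := fun C =>
    ∑ h ∈ Finset.univ.filter (fun h : G => Subgroup.zpowers h = C), θ h
  have hmul : ∀ c : G, ∃ z : ℤ, ∑ h ∈ Finset.univ.filter (fun h : G => h ∈ Subgroup.zpowers c), θ h
      = z := by
    intro c
    obtain ⟨n, hn⟩ := hθ.mult (Subgroup.zpowers c) (sol_of_comm (zpowers_comm c)) 1
    refine ⟨n * Nat.card (Subgroup.zpowers c), ?_⟩
    push_cast
    rw [← hn, finsum_eq_sum_of_fintype]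
    simp only [MonoidHom.one_apply, inv_one, Units.val_one, mul_one]
    exact Finset.sum_subtype _ (by simp) θ
  have hfib : ∀ c : G, ∑ h ∈ Finset.univ.filter (fun h : G => h ∈ Subgroup.zpowers c), θ h
      = ∑ D ∈ Finset.univ.filter (fun D : Subgroup G => D ≤ Subgroup.zpowers c), T D := by
    intro c
    rw [← Finset.sum_fiberwise_of_maps_to
      (s := Finset.univ.filter (fun h : G => h ∈ Subgroup.zpowers c))
      (t := Finset.univ.filter (fun D : Subgroup G => D ≤ Subgroup.zpowers c))
      (g := fun h => Subgroup.zpowers h)]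
    · refine Finset.sum_congr rfl fun D hD => ?_
      refine Finset.sum_congr ?_ fun _ _ => rfl
      ext h
      simp only [Finset.mem_filter, Finset.mem_univ, true_and]
      constructor
      · exact fun h => h.2
      · intro h2
        refine ⟨?_, h2⟩
        have h3 : D ≤ Subgroup.zpowers c := (Finset.mem_filter.mp hD).2
        exact h3 (h2 ▸ Subgroup.mem_zpowers h)
    · intro h hh
      simp only [Finset.mem_filter, Finset.mem_univ, true_and] at hh ⊢
      exact Subgroup.zpowers_le.mpr hh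
  have key : ∀ (N : ℕ) (C : Subgroup G), Nat.card C = N → ∃ z : ℤ, T C = z := by
    intro N
    induction N using Nat.strong_induction_on with
    | _ N ih =>
      intro C hC
      by_cases hcyc : ∃ c, Subgroup.zpowers c = C
      · obtain ⟨c, rfl⟩ := hcyc
        obtain ⟨z, hz⟩ := hmul c
        have h1 : ∀ D ∈ (Finset.univ.filter (fun D : Subgroup G => D ≤ Subgroup.zpowers c)).erase
            (Subgroup.zpowers c), ∃ z : ℤ, T D = z := by
          intro D hD
          rw [Finset.mem_erase, Finset.mem_filter] at hD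
          have hlt : D < Subgroup.zpowers c := lt_of_le_of_ne hD.2.2 hD.1
          refine ih (Nat.card D) ?_ D rfl
          rw [← hC]
          exact Set.Finite.card_lt_card (Set.toFinite _) hlt
        have h2 : ∃ z : ℤ, ∑ D ∈ (Finset.univ.filter
            (fun D : Subgroup G => D ≤ Subgroup.zpowers c)).erase (Subgroup.zpowers c), T D = z := by
          choose! w hw using h1
          refine ⟨∑ D ∈ (Finset.univ.filter
            (fun D : Subgroup G => D ≤ Subgroup.zpowers c)).erase (Subgroup.zpowers c), w D, ?_⟩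
          push_cast
          exact Finset.sum_congr rfl hw
        obtain ⟨w, hw⟩ := h2
        have h3 := Finset.add_sum_erase (Finset.univ.filter
            (fun D : Subgroup G => D ≤ Subgroup.zpowers c)) T (a := Subgroup.zpowers c)
            (by simp)
        refine ⟨z - w, ?_⟩
        rw [hw, ← hfib, hz] at h3
        push_cast
        linear_combination h3
      · refine ⟨0, ?_⟩
        have : Finset.univ.filter (fun h : G => Subgroup.zpowers h = C) = ∅ := by
          rw [Finset.filter_eq_empty_iff]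
          intro h _ hh
          exact hcyc ⟨h, hh⟩
        change ∑ h ∈ Finset.univ.filter (fun h : G => Subgroup.zpowers h = C), θ h = _
        rw [this]; simp
  choose w hw using fun C : Subgroup G => key (Nat.card C) C rfl
  refine ⟨∑ C : Subgroup G, w C, ?_⟩
  rw [finsum_eq_sum_of_fintype, ← Finset.sum_fiberwise_of_maps_to (s := Finset.univ)
    (t := Finset.univ) (g := fun h : G => Subgroup.zpowers h) (fun _ _ => Finset.mem_univ _)]
  push_cast
  exact Finset.sum_congr rfl fun C _ => hw C

lemma int_of_isIntegral_div {a : ℤ} {b : ℕ} (hb : b ≠ 0) {T : ℂ} (hT : IsIntegral ℤ T)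
    (h : (a : ℂ) = b * T) : (b : ℤ) ∣ a := by
  have hb' : (b : ℂ) ≠ 0 := by exact_mod_cast hb
  have hT2 : T = (((a : ℚ) / (b : ℚ) : ℚ) : ℂ) := by
    push_cast
    rw [eq_div_iff hb', h]; ring
  rw [hT2] at hT
  have h4 : ((((a : ℚ) / (b : ℚ) : ℚ)) : ℂ) = algebraMap ℚ ℂ ((a : ℚ) / (b : ℚ)) := rfl
  rw [h4] at hT
  have h3 : IsIntegral ℤ ((a : ℚ) / (b : ℚ)) :=
    (isIntegral_algebraMap_iff (algebraMap ℚ ℂ).injective).mp hT
  obtain ⟨t, ht⟩ := IsIntegrallyClosed.isIntegral_iff.mp h3
  refine ⟨t, ?_⟩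
  have hbq : (b : ℚ) ≠ 0 := by exact_mod_cast hb
  rw [eq_div_iff hbq] at ht
  have h7 : (a : ℚ) = ((b * t : ℤ) : ℚ) := by
    rw [← ht]; push_cast; simp only [eq_intCast]; ring
  exact_mod_cast h7

/-- The multiplicity of the trivial character is an integer. -/
theorem IsSolHeilbronn.int_mult_one (hθ : IsSolHeilbronn θ) :
    ∃ m : ℤ, ∑ᶠ g : G, θ g = m * Nat.card G := by
  classical
  have : Fintype G := Fintype.ofFinite _
  obtain ⟨s, hs⟩ := hθ.exists_int_sum
  suffices h : (Nat.card G : ℤ) ∣ s by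
    obtain ⟨m, hm⟩ := h
    refine ⟨m, ?_⟩
    rw [hs, hm]; push_cast; ring
  have h1 : Nat.card G ∣ s.natAbs := by
    rw [Nat.dvd_iff_prime_pow_dvd_dvd]
    intro p j hp hj
    obtain ⟨F, hF, hF'⟩ := exists_all_prime_to (G := G) hp
    have hjpos : 0 < p ^ j := pow_pos hp.pos j
    set K := Nat.totient (p ^ j) with hK
    have hKpos : 0 < K := Nat.totient_pos.mpr hjpos
    have hpow : HypPCount p (fun g => F g ^ K) := by
      have := hF.pow (K - 1)
      rwa [Nat.sub_add_cancel hKpos] at this
    obtain ⟨k, hk⟩ := hθ.sum_count hp hpow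
    have he : ∀ g : G, ∃ e : ℤ, ((F g : ℤ)) ^ K = 1 + (p : ℤ) ^ j * e := by
      intro g
      have h2 : (F g).Coprime (p ^ j) :=
        Nat.Coprime.pow_right j (((Nat.Prime.coprime_iff_not_dvd hp).mpr (hF' g)).symm)
      have h3 := (Nat.ModEq.pow_totient h2)
      have h4 := (Int.natCast_modEq_iff.mpr h3.symm).dvd
      obtain ⟨e, he⟩ := h4
      push_cast at he
      exact ⟨e, by linear_combination he⟩
    choose e he using he
    set T : ℂ := ∑ g : G, θ g * (e g : ℂ) with hT
    have hTint : IsIntegral ℤ T := by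
      apply IsIntegral.sum
      intro g _
      apply IsIntegral.mul (hθ.isIntegral g)
      have : ((e g : ℤ) : ℂ) = algebraMap ℤ ℂ (e g) := by simp
      rw [this]
      exact isIntegral_algebraMap
    have hrel : ((k * Nat.card G - s : ℤ) : ℂ) = ((p ^ j : ℕ) : ℂ) * T := by
      push_cast
      rw [← hk, ← hs, finsum_eq_sum_of_fintype, finsum_eq_sum_of_fintype, hT, Finset.mul_sum,
        ← Finset.sum_sub_distrib]
      refine Finset.sum_congr rfl fun g _ => ?_
      have h5 : ((F g : ℂ)) ^ K = 1 + (p : ℂ) ^ j * (e g : ℂ) := by exact_mod_cast he g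
      push_cast
      rw [h5]
      ring
    have h6 := int_of_isIntegral_div hjpos.ne' hTint hrel
    have h7 : ((p ^ j : ℕ) : ℤ) ∣ k * Nat.card G :=
      Dvd.dvd.mul_left (Int.natCast_dvd_natCast.mpr hj) _
    have h8 : ((p ^ j : ℕ) : ℤ) ∣ s := by
      have := dvd_sub h7 h6
      simpa using this
    exact Int.natCast_dvd.mp h8
  exact Int.natCast_dvd.mpr h1

/-- All multiplicities of linear characters are integers. -/
theorem IsSolHeilbronn.int_mult (hθ : IsSolHeilbronn θ) (χ : G →* ℂˣ) :
    ∃ m : ℤ, ∑ᶠ g : G, θ g * (((χ g)⁻¹ : ℂˣ) : ℂ) = m * Nat.card G :=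
  (hθ.twist χ).int_mult_one

/-! ### Degree two -/

lemma IsSolHeilbronn.dd_conj (hθ : IsSolHeilbronn θ) (g h : G) :
    dd θ (h * g * h⁻¹) = dd θ g := by
  unfold dd
  rw [conj_pow, hθ.conj, hθ.conj]

lemma IsSolHeilbronn.dd_mul (hθ : IsSolHeilbronn θ) (h1 : θ 1 = 2) {x y : G}
    (hxy : x * y = y * x) : dd θ (x * y) = dd θ x * dd θ y := by
  have h := (hθ.pair hxy).dd_mul h1
    (x := ⟨x, Subgroup.subset_closure (by simp)⟩) (y := ⟨y, Subgroup.subset_closure (by simp)⟩)
    (Subtype.ext hxy)
  exact h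

lemma IsSolHeilbronn.dd_norm (hθ : IsSolHeilbronn θ) (h1 : θ 1 = 2) (x : G) :
    ‖dd θ x‖ = 1 :=
  (hθ.zp x).dd_norm h1 ⟨x, Subgroup.mem_zpowers x⟩

/-- The determinant of degree two function is a linear character. -/
theorem IsSolHeilbronn.exists_det (hθ : IsSolHeilbronn θ) (h1 : θ 1 = 2) :
    ∃ D : G →* ℂˣ, ∀ g, ((D g : ℂˣ) : ℂ) = dd θ g := by
  have hne : ∀ g, dd θ g ≠ 0 := fun g => by
    rw [← norm_ne_zero_iff, hθ.dd_norm h1]; norm_num
  let f : G → ℂˣ := fun g => Units.mk0 (dd θ g) (hne g)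
  have hf : ∀ g h, f (g * h) = f g * f h := by
    apply mul_of_pgroups
    · intro g h
      apply Units.ext
      exact hθ.dd_conj g h
    · intro g n
      induction n with
      | zero => apply Units.ext; simp [f, dd_one h1]
      | succ n ih =>
        rw [pow_succ, pow_succ, ← ih]
        apply Units.ext
        exact hθ.dd_mul h1 ((Commute.refl g).pow_left n).eq
    · intro p hp P hP x hx y hy
      have : Fact p.Prime := ⟨hp⟩
      apply Units.ext
      have hN : Group.IsNilpotent P := hP.isNilpotent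
      have hS : Group.IsSolvable P := inferInstance
      exact two_pgroup (p := p) (Nat.card P) P rfl hP (fun x => θ x) (hθ.comp_sol hS P.subtype)
        h1 ⟨x, hx⟩ ⟨y, hy⟩
  refine ⟨{ toFun := f, map_one' := ?_, map_mul' := hf }, fun g => rfl⟩
  apply Units.ext
  exact dd_one h1

/-- degree one -/
theorem IsSolHeilbronn.deg_one (hθ : IsSolHeilbronn θ)
    (h1 : θ 1 = 1) : ∃ ψ : G →* ℂˣ, ∀ g, θ g = (ψ g : ℂˣ) := by
  have hne : ∀ g, θ g ≠ 0 := fun g => by
    rw [← norm_ne_zero_iff, show ‖θ g‖ = 1 from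
      (hθ.zp g).one_norm h1 ⟨g, Subgroup.mem_zpowers g⟩]
    norm_num
  let f : G → ℂˣ := fun g => Units.mk0 (θ g) (hne g)
  have hcm : ∀ x y : G, x * y = y * x → θ (x * y) = θ x * θ y := by
    intro x y hxy
    exact (hθ.pair hxy).one_comm_mul h1
      (x := ⟨x, Subgroup.subset_closure (by simp)⟩) (y := ⟨y, Subgroup.subset_closure (by simp)⟩)
      (Subtype.ext hxy)
  have hf : ∀ g h, f (g * h) = f g * f h := by
    apply mul_of_pgroups
    · intro g h
      apply Units.ext
      exact hθ.conj g h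
    · intro g n
      induction n with
      | zero => apply Units.ext; simp [f, h1]
      | succ n ih =>
        rw [pow_succ, pow_succ, ← ih]
        apply Units.ext
        exact hcm _ _ ((Commute.refl g).pow_left n).eq
    · intro p hp P hP x hx y hy
      have : Fact p.Prime := ⟨hp⟩
      apply Units.ext
      have hN : Group.IsNilpotent P := hP.isNilpotent
      have hS : Group.IsSolvable P := inferInstance
      exact one_pgroup (p := p) (Nat.card P) P rfl hP (fun x => θ x) (hθ.comp_sol hS P.subtype)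
        h1 ⟨x, hx⟩ ⟨y, hy⟩
  refine ⟨{ toFun := f, map_one' := ?_, map_mul' := hf }, fun g => rfl⟩
  apply Units.ext
  exact h1

/-- parity -/
theorem IsSolHeilbronn.parity (hθ : IsSolHeilbronn θ) (h1 : θ 1 = 2) (hd : ∀ g, dd θ g = 1)
    {n : ℤ} (hn : ∑ᶠ g : G, θ g = n * Nat.card G) : Even n := by
  classical
  have : Fintype G := Fintype.ofFinite _
  obtain ⟨F, hF, hodd⟩ := exists_all_odd (G := G)
  set N := Nat.card G with hN
  have hpow : HypCount (fun g => F g ^ (2 ^ N)) := by
    have := hF.pow (2 ^ N - 1)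
    rwa [Nat.sub_add_cancel Nat.one_le_two_pow] at this
  obtain ⟨k, hk⟩ := hθ.sum_count_even h1 hd hpow
  choose e he using fun g => odd_pow_two_pow (F g) (hodd g) N
  set T : ℂ := ∑ g : G, θ g * (e g : ℂ) with hT
  have hTint : IsIntegral ℤ T := by
    apply IsIntegral.sum
    intro g _
    apply IsIntegral.mul (hθ.isIntegral g)
    have : ((e g : ℕ) : ℂ) = algebraMap ℤ ℂ (e g : ℤ) := by simp
    rw [this]
    exact isIntegral_algebraMap
  have hrel : (((2 * k - n) * N : ℤ) : ℂ) = ((2 ^ (N + 1) : ℕ) : ℂ) * T := by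
    have h2 : (2 * k * N : ℂ) = n * N + 2 ^ (N + 1) * T := by
      rw [← hk, ← hn, finsum_eq_sum_of_fintype, finsum_eq_sum_of_fintype, hT, Finset.mul_sum,
        ← Finset.sum_add_distrib]
      refine Finset.sum_congr rfl fun g _ => ?_
      rw [he]
      push_cast
      ring
    push_cast
    linear_combination h2
  have h5 := int_of_isIntegral_div (pow_pos two_pos _).ne' hTint hrel
  by_contra hne
  have hnodd : Odd n := Int.not_even_iff_odd.mp hne
  have h8 : IsCoprime (((2 ^ (N + 1) : ℕ) : ℤ)) ((2 * k : ℤ) - n) := by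
    push_cast
    apply IsCoprime.pow_left
    rw [Int.isCoprime_iff_gcd_eq_one]
    have h9 : Odd ((2 * k : ℤ) - n) := by
      apply Even.sub_odd
      · exact even_two_mul _
      · exact hnodd
    rw [Int.gcd_eq_natAbs]
    have h10 : Odd ((2 * k : ℤ) - n).natAbs := Int.natAbs_odd.mpr h9
    exact Nat.coprime_two_left.mpr h10
  have h9 : ((2 ^ (N + 1) : ℕ) : ℤ) ∣ (N : ℤ) := h8.dvd_of_dvd_mul_left h5
  have h10 : 2 ^ (N + 1) ∣ N := by exact_mod_cast h9
  have h11 := Nat.le_of_dvd Nat.card_pos h10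
  have h12 : N < 2 ^ N := Nat.lt_two_pow_self
  have h13 : 2 ^ N ≤ 2 ^ (N + 1) := Nat.pow_le_pow_right (by norm_num) (Nat.le_succ N)
  omega

end

end Pool.Agent.H302R3
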