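import Mathlib
import Pool.Agent.H302R3.Integral

/-!
# Functions of degree at most two that are Heilbronn on solvable subgroups
-/

set_option autoImplicit false

namespace Pool.Agent.H302R3

open Pool.Agent.H302R2 MulAction

universe u

section

variable {G : Type u} [Group G] [Finite G] {θ : G → ℂ}

lemma IsSolHeilbronn.nonneg_of_dd (hθ : IsSolHeilbronn θ) (h1 : θ 1 = 2)
    (hd : ∀ g, dd θ g = 1) {n : ℤ} (hn : ∑ᶠ g : G, θ g = n * Nat.card G) : 0 ≤ n := by
  classical
  have : Fintype G := Fintype.ofFinite _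
  have heven := hθ.parity h1 hd hn
  have hlow : (-2 : ℤ) < n := by
    rw [finsum_eq_sum_of_fintype] at hn
    have h2 := congrArg Complex.re hn
    rw [Complex.re_sum] at h2
    have hnn : ∀ x ∈ (Finset.univ : Finset G), (0 : ℝ) ≤ (θ x).re + 2 := by
      intro x _
      have h3 := (Complex.abs_re_le_norm (θ x)).trans (hθ.norm_le x)
      rw [h1] at h3
      have h4 := (abs_le.mp h3).1
      norm_num at h4
      linarith
    have h3 := Finset.single_le_sum hnn (Finset.mem_univ (1 : G))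
    rw [h1] at h3
    have h4 : ∑ x : G, ((θ x).re + 2) = (n + 2) * Nat.card G := by
      rw [Finset.sum_add_distrib, h2, Finset.sum_const, Finset.card_univ, nsmul_eq_mul,
        ← Nat.card_eq_fintype_card]
      simp
      ring
    rw [h4, show ((2 : ℂ).re + 2 : ℝ) = 4 by norm_num] at h3
    have h5 : (0 : ℝ) < (n + 2) * Nat.card G := by linarith
    have h6 : (0 : ℝ) < Nat.card G := by exact_mod_cast Nat.card_pos
    have h7 : (0 : ℝ) < n + 2 := (pos_iff_pos_of_mul_pos h5).mpr h6
    have h8 : (0 : ℤ) < n + 2 := by exact_mod_cast h7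
    omega
  obtain ⟨k, rfl⟩ := heven
  omega

/-- The multiplicity of the trivial character in degree two is nonnegative. -/
theorem IsSolHeilbronn.nonneg_two (hθ : IsSolHeilbronn θ) (h1 : θ 1 = 2)
    {n : ℤ} (hn : ∑ᶠ g : G, θ g = n * Nat.card G) : 0 ≤ n := by
  classical
  have : Fintype G := Fintype.ofFinite _
  obtain ⟨D, hD⟩ := hθ.exists_det h1
  set K := D.ker with hK
  have hcardpos : (0 : ℝ) < Nat.card G := by exact_mod_cast Nat.card_pos
  have hcardC : (Nat.card G : ℂ) ≠ 0 := by exact_mod_cast Nat.card_pos.ne'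
  -- the multiplicity on the kernel
  have hθK := hθ.comp K.subtype
  obtain ⟨S, hS⟩ := hθK.int_mult_one
  have hSnn : 0 ≤ S := by
    refine hθK.nonneg_of_dd (by simpa using h1) (fun g => ?_) hS
    have h2 : dd (fun e : K => θ (K.subtype e)) g = dd θ g := rfl
    rw [h2, ← hD]
    have h3 : D g = 1 := g.2
    rw [h3]; rfl
  have hSeven : Even S := by
    refine hθK.parity (by simpa using h1) (fun g => ?_) hS
    have h2 : dd (fun e : K => θ (K.subtype e)) g = dd θ g := rfl
    rw [h2, ← hD]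
    have h3 : D g = 1 := g.2
    rw [h3]; rfl
  -- cyclic quotient
  set q := Nat.card D.range with hq
  have hqpos : 0 < q := Nat.card_pos
  have hcyc : IsCyclic D.range := inferInstance
  obtain ⟨u', hu⟩ := hcyc.exists_generator
  obtain ⟨g₀, hg₀⟩ := u'.2
  have hordu : orderOf (u' : ℂˣ) = q := by
    rw [Subgroup.orderOf_coe]
    exact orderOf_eq_card_of_forall_mem_zpowers hu
  have hDq : ∀ g, D g ^ q = 1 := by
    intro g
    have h2 : (⟨D g, g, rfl⟩ : D.range) ^ q = 1 := pow_card_eq_one'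
    exact congrArg Subtype.val h2
  have hindex : Nat.card G = q * Nat.card K := by
    rw [hq, ← Nat.card_congr (QuotientGroup.quotientKerEquivRange D).toEquiv]
    exact Subgroup.card_eq_card_quotient_mul_card_subgroup _
  -- the multiplicities of the powers of D
  choose m hm using fun j : ℕ => hθ.int_mult (D ^ j)
  have hm' : ∀ j : ℕ, ∑ g : G, θ g * (((D g : ℂˣ) : ℂ)⁻¹) ^ j = m j * Nat.card G := by
    intro j
    rw [← hm j, finsum_eq_sum_of_fintype]
    refine Finset.sum_congr rfl fun g _ => ?_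
    rw [MonoidHom.pow_apply, ← inv_pow, Units.val_pow_eq_pow_val, Units.val_inv_eq_inv_val]
  -- norms
  have hDn : ∀ g, ‖((D g : ℂˣ) : ℂ)‖ = 1 := fun g => norm_char D g
  have hconjD : ∀ g, (starRingEnd ℂ) ((D g : ℂˣ) : ℂ) = (((D g : ℂˣ) : ℂ))⁻¹ := by
    intro g
    rw [Complex.inv_def, Complex.normSq_eq_norm_sq, hDn]
    simp
  have hconjθ : ∀ g, (starRingEnd ℂ) (θ g) = θ g * (((D g : ℂˣ) : ℂ))⁻¹ := by
    intro g
    obtain ⟨ψ, φ, h⟩ := (hθ.zp g).comm_two (zpowers_comm g) (by simpa using h1)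
    have h2 := h ⟨g, Subgroup.mem_zpowers g⟩
    have h3 : dd θ g = ((ψ ⟨g, Subgroup.mem_zpowers g⟩ : ℂˣ) : ℂ)
        * ((φ ⟨g, Subgroup.mem_zpowers g⟩ : ℂˣ) : ℂ) :=
      dd_of_sum (θ := fun e : Subgroup.zpowers g => θ e) h ⟨g, Subgroup.mem_zpowers g⟩
    simp only at h2
    rw [hD, h3, h2]
    have hα := norm_char ψ ⟨g, Subgroup.mem_zpowers g⟩
    have hβ := norm_char φ ⟨g, Subgroup.mem_zpowers g⟩
    set α := ((ψ ⟨g, Subgroup.mem_zpowers g⟩ : ℂˣ) : ℂ)
    set β := ((φ ⟨g, Subgroup.mem_zpowers g⟩ : ℂˣ) : ℂ)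
    have hα0 : α ≠ 0 := by rw [← norm_ne_zero_iff, hα]; norm_num
    have hβ0 : β ≠ 0 := by rw [← norm_ne_zero_iff, hβ]; norm_num
    have hαc : (starRingEnd ℂ) α = α⁻¹ := by
      rw [Complex.inv_def, Complex.normSq_eq_norm_sq, hα]; simp
    have hβc : (starRingEnd ℂ) β = β⁻¹ := by
      rw [Complex.inv_def, Complex.normSq_eq_norm_sq, hβ]; simp
    rw [map_add, hαc, hβc]
    field_simp
    ring
  -- m 0 = n, m 1 = n
  have hm0 : m 0 = n := by
    have h2 := hm' 0
    simp only [pow_zero, mul_one] at h2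
    rw [finsum_eq_sum_of_fintype] at hn
    rw [hn] at h2
    have h3 := mul_right_cancel₀ hcardC h2
    exact_mod_cast h3.symm
  have hm1 : m 1 = n := by
    have h2 := hm' 1
    simp only [pow_one] at h2
    rw [finsum_eq_sum_of_fintype] at hn
    have h3 : ∑ g : G, θ g * (((D g : ℂˣ) : ℂ))⁻¹ = (starRingEnd ℂ) (∑ g : G, θ g) := by
      rw [map_sum]
      exact Finset.sum_congr rfl fun g _ => (hconjθ g).symm
    rw [h3, hn] at h2
    simp only [map_mul, map_intCast, map_natCast] at h2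
    have h4 := mul_right_cancel₀ hcardC h2
    exact_mod_cast h4.symm
  -- geometric sums
  have hgeom : ∀ g, D g ≠ 1 → ∑ j ∈ Finset.range q, (((D g : ℂˣ) : ℂ)⁻¹) ^ j = 0 := by
    intro g hg
    have h2 : (((D g : ℂˣ) : ℂ)⁻¹) ≠ 1 := by
      rw [ne_eq, inv_eq_one, Units.val_eq_one]
      exact hg
    rw [geom_sum_eq h2]
    have h3 : (((D g : ℂˣ) : ℂ)⁻¹) ^ q = 1 := by
      rw [inv_pow, ← Units.val_pow_eq_pow_val, hDq]; simp
    rw [h3, sub_self, zero_div]
  have hsumm : ∑ j ∈ Finset.range q, m j = S := by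
    have h2 : ∑ j ∈ Finset.range q, ((m j : ℂ) * Nat.card G) = (S * Nat.card G : ℂ) := by
      rw [Finset.sum_congr rfl (fun j _ => (hm' j).symm), Finset.sum_comm]
      have h3 : ∀ g : G, ∑ j ∈ Finset.range q, θ g * (((D g : ℂˣ) : ℂ)⁻¹) ^ j
          = if g ∈ K then θ g * q else 0 := by
        intro g
        rw [← Finset.mul_sum]
        by_cases hg : g ∈ K
        · have h4 : D g = 1 := hg
          rw [if_pos hg, h4]
          simp
        · have h4 : D g ≠ 1 := hg
          rw [if_neg hg, hgeom g h4, mul_zero]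
      rw [Finset.sum_congr rfl (fun g _ => h3 g), ← Finset.sum_filter]
      have h5 : ∑ g ∈ Finset.univ.filter (fun g : G => g ∈ K), θ g * (q : ℂ)
          = (∑ e : K, θ e) * q := by
        rw [← Finset.sum_mul]
        congr 1
        exact Finset.sum_subtype _ (by simp) θ
      rw [finsum_eq_sum_of_fintype] at hS
      have h6 : ∑ e : K, θ e = S * Nat.card K := hS
      rw [h5, h6, hindex]
      push_cast
      ring
    rw [← Finset.sum_mul] at h2
    have h3 := mul_right_cancel₀ hcardC h2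
    exact_mod_cast h3
  -- orthogonality
  have horth : ∀ i ∈ Finset.range q, ∀ j ∈ Finset.range q,
      ∑ g : G, (((D g : ℂˣ) : ℂ)) ^ i * (((D g : ℂˣ) : ℂ)⁻¹) ^ j
        = if i = j then (Nat.card G : ℂ) else 0 := by
    intro i hi j hj
    rw [Finset.mem_range] at hi hj
    by_cases hij : i = j
    · subst hij
      rw [if_pos rfl]
      have h2 : ∀ g : G, (((D g : ℂˣ) : ℂ)) ^ i * (((D g : ℂˣ) : ℂ)⁻¹) ^ i = 1 := by
        intro g
        rw [← mul_pow, mul_inv_cancel₀ (Units.ne_zero _), one_pow]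
      rw [Finset.sum_congr rfl (fun g _ => h2 g)]
      simp [Nat.card_eq_fintype_card]
    · rw [if_neg hij]
      let ψ : G →* ℂˣ := D ^ i * (D ^ j)⁻¹
      have h2 : ∀ g : G, (((D g : ℂˣ) : ℂ)) ^ i * (((D g : ℂˣ) : ℂ)⁻¹) ^ j
          = ((ψ g : ℂˣ) : ℂ) := by
        intro g
        simp only [ψ, MonoidHom.mul_apply, MonoidHom.inv_apply, MonoidHom.pow_apply]
        rw [Units.val_mul, Units.val_inv_eq_inv_val, Units.val_pow_eq_pow_val,
          Units.val_pow_eq_pow_val, inv_pow]
      have h3 : ψ g₀ ≠ 1 := by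
        simp only [ψ, MonoidHom.mul_apply, MonoidHom.inv_apply, MonoidHom.pow_apply]
        rw [hg₀]
        intro h4
        rw [mul_inv_eq_one] at h4
        exact hij (pow_injOn_Iio_orderOf (by rw [Set.mem_Iio, hordu]; exact hi)
          (by rw [Set.mem_Iio, hordu]; exact hj) h4)
      rw [Finset.sum_congr rfl (fun g _ => h2 g), ← finsum_eq_sum_of_fintype]
      exact sum_zpowers_eq_zero ψ h3
  -- Bessel
  set P : G → ℂ := fun g => ∑ j ∈ Finset.range q, (m j : ℂ) * (((D g : ℂˣ) : ℂ)) ^ j with hP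
  set R : ℤ := ∑ j ∈ Finset.range q, m j ^ 2 with hR
  have hconjP : ∀ g, (starRingEnd ℂ) (P g)
      = ∑ j ∈ Finset.range q, (m j : ℂ) * (((D g : ℂˣ) : ℂ)⁻¹) ^ j := by
    intro g
    rw [hP, map_sum]
    refine Finset.sum_congr rfl fun j _ => ?_
    rw [map_mul, map_pow, hconjD, map_intCast]
  have hA : ∑ g : G, θ g * (starRingEnd ℂ) (P g) = R * Nat.card G := by
    have h2 : ∀ g : G, θ g * (starRingEnd ℂ) (P g)
        = ∑ j ∈ Finset.range q, (m j : ℂ) * (θ g * (((D g : ℂˣ) : ℂ)⁻¹) ^ j) := by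
      intro g
      rw [hconjP, Finset.mul_sum]
      exact Finset.sum_congr rfl fun j _ => by ring
    rw [Finset.sum_congr rfl (fun g _ => h2 g), Finset.sum_comm, hR]
    push_cast
    rw [Finset.sum_mul]
    refine Finset.sum_congr rfl fun j _ => ?_
    rw [← Finset.mul_sum, hm']
    ring
  have hB : ∑ g : G, P g * (starRingEnd ℂ) (P g) = R * Nat.card G := by
    have h2 : ∀ g : G, P g * (starRingEnd ℂ) (P g)
        = ∑ i ∈ Finset.range q, ∑ j ∈ Finset.range q,
          ((m i : ℂ) * (m j : ℂ)) * ((((D g : ℂˣ) : ℂ)) ^ i * (((D g : ℂˣ) : ℂ)⁻¹) ^ j) := by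
      intro g
      rw [hconjP, hP, Finset.sum_mul_sum]
      refine Finset.sum_congr rfl fun i _ => Finset.sum_congr rfl fun j _ => by ring
    rw [Finset.sum_congr rfl (fun g _ => h2 g), Finset.sum_comm, hR]
    push_cast
    rw [Finset.sum_mul]
    refine Finset.sum_congr rfl fun i hi => ?_
    rw [Finset.sum_comm]
    have h3 : ∀ j ∈ Finset.range q, ∑ g : G, ((m i : ℂ) * (m j : ℂ)) *
        ((((D g : ℂˣ) : ℂ)) ^ i * (((D g : ℂˣ) : ℂ)⁻¹) ^ j)
        = if i = j then (m i : ℂ) ^ 2 * Nat.card G else 0 := by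
      intro j hj
      rw [← Finset.mul_sum, horth i hi j hj]
      by_cases hij : i = j
      · subst hij
        rw [if_pos rfl, if_pos rfl]; ring
      · rw [if_neg hij, if_neg hij, mul_zero]
    rw [Finset.sum_congr rfl h3, Finset.sum_ite_eq, if_pos hi]
  have hBessel : (∑ g : G, ‖θ g - P g‖ ^ 2 : ℝ) = (∑ g : G, ‖θ g‖ ^ 2) - R * Nat.card G := by
    have h2 : ∀ g : G, ‖θ g - P g‖ ^ 2
        = ‖θ g‖ ^ 2 - 2 * (θ g * (starRingEnd ℂ) (P g)).re + (P g * (starRingEnd ℂ) (P g)).re := by
      intro g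
      rw [← Complex.normSq_eq_norm_sq, ← Complex.normSq_eq_norm_sq, Complex.normSq_sub,
        Complex.mul_conj]
      simp
      ring
    rw [Finset.sum_congr rfl (fun g _ => h2 g), Finset.sum_add_distrib, Finset.sum_sub_distrib,
      ← Finset.mul_sum, ← Complex.re_sum, ← Complex.re_sum, hA, hB]
    simp
    ring
  have hP1 : P 1 = S := by
    have h2 : P 1 = ∑ j ∈ Finset.range q, (m j : ℂ) := by
      change ∑ j ∈ Finset.range q, (m j : ℂ) * (((D 1 : ℂˣ) : ℂ)) ^ j = _
      simp
    rw [h2, ← hsumm]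
    push_cast
    rfl
  have hone : ((2 : ℝ) - S) ^ 2 ≤ ∑ g : G, ‖θ g - P g‖ ^ 2 := by
    have h2 := Finset.single_le_sum (f := fun g : G => ‖θ g - P g‖ ^ 2)
      (fun g _ => by positivity) (Finset.mem_univ (1 : G))
    rw [h1, hP1] at h2
    have h3 : ‖(2 : ℂ) - (S : ℂ)‖ ^ 2 = ((2 : ℝ) - S) ^ 2 := by
      have h4 : (2 : ℂ) - (S : ℂ) = (((2 : ℝ) - S : ℝ) : ℂ) := by push_cast; ring
      rw [h4, Complex.norm_real, Real.norm_eq_abs, sq_abs]
    rwa [h3] at h2
  have hnorm4 : (∑ g : G, ‖θ g‖ ^ 2 : ℝ) ≤ 4 * Nat.card G := by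
    have h2 : ∀ g ∈ (Finset.univ : Finset G), ‖θ g‖ ^ 2 ≤ (4 : ℝ) := by
      intro g _
      have h3 := hθ.norm_le g
      rw [h1] at h3
      norm_num at h3
      nlinarith [norm_nonneg (θ g)]
    have h3 := Finset.sum_le_sum h2
    rw [Finset.sum_const, Finset.card_univ, nsmul_eq_mul, ← Nat.card_eq_fintype_card] at h3
    linarith
  have hfin : ((2 : ℝ) - S) ^ 2 ≤ (4 - R) * Nat.card G := by
    rw [hBessel] at hone
    linarith
  -- conclusion
  by_contra hneg
  push Not at hneg
  by_cases hq1 : q = 1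
  · -- D trivial
    have h2 : m 0 = S := by
      rw [← hsumm, hq1]; simp
    rw [hm0] at h2
    omega
  have hq2 : 2 ≤ q := by omega
  have hR2 : S + 4 ≤ R := by
    have h2 : ∀ j ∈ Finset.range q, (if j = 0 ∨ j = 1 then (2 : ℤ) else 0) ≤ m j ^ 2 - m j := by
      intro j _
      split_ifs with hj
      · have h3 : m j ≤ -1 := by
          rcases hj with rfl | rfl
          · rw [hm0]; omega
          · rw [hm1]; omega
        nlinarith
      · rcases le_or_gt (m j) 0 with h3 | h3
        · nlinarith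
        · nlinarith
    have h3 := Finset.sum_le_sum h2
    rw [Finset.sum_sub_distrib, hsumm, ← hR, ← Finset.sum_filter, Finset.sum_const] at h3
    have h4 : 2 ≤ (Finset.filter (fun j => j = 0 ∨ j = 1) (Finset.range q)).card := by
      have h5 : ({0, 1} : Finset ℕ) ⊆ Finset.filter (fun j => j = 0 ∨ j = 1) (Finset.range q) := by
        intro x hx
        simp only [Finset.mem_insert, Finset.mem_singleton] at hx
        simp only [Finset.mem_filter, Finset.mem_range]
        refine ⟨?_, hx⟩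
        rcases hx with rfl | rfl <;> omega
      have h6 := Finset.card_le_card h5
      simpa using h6
    rw [nsmul_eq_mul] at h3
    have h5 : (2 : ℤ) ≤ ((Finset.filter (fun j => j = 0 ∨ j = 1) (Finset.range q)).card : ℤ) := by
      exact_mod_cast h4
    linarith
  have hSr : (0 : ℝ) ≤ S := by exact_mod_cast hSnn
  have hRr : (S : ℝ) + 4 ≤ R := by exact_mod_cast hR2
  rcases eq_or_ne S 0 with hS0 | hS0
  · rw [hS0] at hfin hRr
    have h2 : (4 - (R : ℝ)) * Nat.card G ≤ 0 := by
      apply mul_nonpos_of_nonpos_of_nonneg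
      · push_cast at hRr; linarith
      · exact hcardpos.le
    have h3 : ((2 : ℝ) - ((0 : ℤ) : ℝ)) ^ 2 = 4 := by norm_num
    rw [h3] at hfin
    linarith
  · have hSpos : (0 : ℝ) < S := by
      have : 0 < S := lt_of_le_of_ne hSnn (Ne.symm hS0)
      exact_mod_cast this
    have h2 : (4 - (R : ℝ)) * Nat.card G < 0 := by
      apply mul_neg_of_neg_of_pos
      · linarith
      · exact hcardpos
    nlinarith [sq_nonneg ((2 : ℝ) - S)]

/-- A class function of degree at most two whose restrictions to all solvable subgroups have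
nonnegative integer multiplicities against linear characters has this property on all
subgroups. -/
theorem IsSolHeilbronn.isHeilbronn (hθ : IsSolHeilbronn θ) (h2 : (θ 1).re ≤ 2) :
    IsHeilbronn θ where
  conj := hθ.conj
  mult H χ := by
    classical
    have : Fintype H := Fintype.ofFinite _
    have hH := (hθ.comp H.subtype).twist χ
    obtain ⟨n, hn⟩ := hH.int_mult_one
    have hdeg : θ 1 * (((χ 1)⁻¹ : ℂˣ) : ℂ) = θ 1 := by simp
    obtain ⟨r, hr⟩ := hθ.exists_deg
    suffices h : 0 ≤ n by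
      obtain ⟨k, rfl⟩ := Int.eq_ofNat_of_zero_le h
      exact ⟨k, by simpa using hn⟩
    have hr2 : r ≤ 2 := by
      rw [hr, Complex.natCast_re] at h2
      exact_mod_cast h2
    have hcardC : (Nat.card H : ℂ) ≠ 0 := by exact_mod_cast Nat.card_pos.ne'
    rcases (by omega : r = 0 ∨ r = 1 ∨ r = 2) with rfl | rfl | rfl
    · have hz : ∀ g, θ g = 0 := by
        intro g
        have := hθ.norm_le g
        rw [hr] at this
        simpa using this
      have h3 : ∑ᶠ g : H, θ (H.subtype g) * (((χ g)⁻¹ : ℂˣ) : ℂ) = 0 := by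
        simp [hz]
      rw [h3] at hn
      have h4 : (n : ℂ) = 0 := by
        rcases mul_eq_zero.mp hn.symm with h5 | h5
        · exact h5
        · exact absurd h5 hcardC
      have h5 : n = 0 := by exact_mod_cast h4
      omega
    · obtain ⟨ψ, hψ⟩ := hH.deg_one (by simp [hr])
      by_cases hψ1 : ψ = 1
      · have h3 : ∑ᶠ g : H, θ (H.subtype g) * (((χ g)⁻¹ : ℂˣ) : ℂ) = Nat.card H := by
          rw [finsum_congr hψ, hψ1, finsum_eq_sum_of_fintype]
          simp [Nat.card_eq_fintype_card]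
        rw [h3] at hn
        have h4 : (n : ℂ) = 1 := by
          apply mul_right_cancel₀ hcardC
          rw [← hn, one_mul]
        have h5 : n = 1 := by exact_mod_cast h4
        omega
      · obtain ⟨w, hw⟩ : ∃ w, ψ w ≠ 1 := by
          by_contra hcon
          push Not at hcon
          exact hψ1 (MonoidHom.ext hcon)
        have h3 : ∑ᶠ g : H, θ (H.subtype g) * (((χ g)⁻¹ : ℂˣ) : ℂ) = 0 := by
          rw [finsum_congr hψ]
          exact sum_zpowers_eq_zero ψ hw
        rw [h3] at hn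
        have h4 : (n : ℂ) = 0 := by
          rcases mul_eq_zero.mp hn.symm with h5 | h5
          · exact h5
          · exact absurd h5 hcardC
        have h5 : n = 0 := by exact_mod_cast h4
        omega
    · refine hH.nonneg_two ?_ hn
      simp [hr]

end

end Pool.Agent.H302R3
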